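import Mathlib

set_option autoImplicit false

namespace Pool.Agent.Results.MP_eac85a_an.NoLines

open scoped RealInnerProductSpace

/-- `x` and `y` weakly have the same phase. -/
def WeaklySamePhase {n : ℕ} (x y : EuclideanSpace ℝ (Fin n)) : Prop :=
  ∃ θ : ℝ, (θ = 1 ∨ θ = -1) ∧ ∀ k, x k ≠ 0 → y k ≠ 0 → Real.sign (x k) = θ * Real.sign (y k)

/-- The family of subspaces `W` does weak phase retrieval. -/
def WeakPR {n m : ℕ} (W : Fin m → Submodule ℝ (EuclideanSpace ℝ (Fin n))) : Prop :=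
  ∀ x y : EuclideanSpace ℝ (Fin n),
    (∀ i, ‖(W i).starProjection x‖ = ‖(W i).starProjection y‖) → WeaklySamePhase x y

theorem not_same {n : ℕ} {x y : EuclideanSpace ℝ (Fin n)} {k l : Fin n} (hk : 0 < x k * y k)
    (hl : x l * y l < 0) : ¬ WeaklySamePhase x y := by
  rintro ⟨θ, hθ, h⟩
  have h1 := h k (left_ne_zero_of_mul hk.ne') (right_ne_zero_of_mul hk.ne')
  have h2 := h l (left_ne_zero_of_mul hl.ne) (right_ne_zero_of_mul hl.ne)
  rcases hθ with rfl | rfl
  · rcases mul_neg_iff.1 hl with ⟨a, b⟩ | ⟨a, b⟩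
    · rw [Real.sign_of_pos a, Real.sign_of_neg b] at h2; norm_num at h2
    · rw [Real.sign_of_neg a, Real.sign_of_pos b] at h2; norm_num at h2
  · rcases mul_pos_iff.1 hk with ⟨a, b⟩ | ⟨a, b⟩
    · rw [Real.sign_of_pos a, Real.sign_of_pos b] at h1; norm_num at h1
    · rw [Real.sign_of_neg a, Real.sign_of_neg b] at h1; norm_num at h1

theorem exists_ne {n : ℕ} {T : Type} [Fintype T] (g : T → EuclideanSpace ℝ (Fin n) →ₗ[ℝ] ℝ)
    (hT : Fintype.card T < n) : ∃ w : EuclideanSpace ℝ (Fin n), w ≠ 0 ∧ ∀ t, g t w = 0 := by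
  have h : LinearMap.ker (LinearMap.pi g) ≠ ⊥ :=
    LinearMap.ker_ne_bot_of_finrank_lt (by simpa using hT)
  obtain ⟨w, hw, hw0⟩ := Submodule.exists_mem_ne_zero_of_ne_bot h
  exact ⟨w, hw0, fun t => congrFun (LinearMap.mem_ker.1 hw) t⟩

/-- the diagonal bilinear form with weights `lam` -/
def B {n : ℕ} (lam u v : EuclideanSpace ℝ (Fin n)) : ℝ := ∑ k, lam k * (u k * v k)

section Core

variable {n : ℕ} {ι : Type} [Fintype ι] [DecidableEq ι]
  (f : ι → EuclideanSpace ℝ (Fin n) →ₗ[ℝ] ℝ)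

theorem exists_ne_finset (I : Finset ι) (hI : I.card < n) :
    ∃ w : EuclideanSpace ℝ (Fin n), w ≠ 0 ∧ ∀ i ∈ I, f i w = 0 := by
  obtain ⟨w, hw, h⟩ := exists_ne (fun i : I => f i) (by simpa using hI)
  exact ⟨w, hw, fun i hi => h ⟨i, hi⟩⟩

variable (H : ∀ (I : Finset ι) (u v : EuclideanSpace ℝ (Fin n)), (∀ i ∈ I, f i u = 0) →
    (∀ i, i ∉ I → f i v = 0) → ∀ k l, u k ^ 2 * v l ^ 2 = u l ^ 2 * v k ^ 2)
  (hc : Fintype.card ι = 2 * n - 2) (hn : 7 ≤ n)

include H hc hn

theorem spark (I : Finset ι) (hI : n ≤ I.card) (u : EuclideanSpace ℝ (Fin n))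
    (hu : ∀ i ∈ I, f i u = 0) : u = 0 := by
  ext k
  by_contra hk
  obtain ⟨v, hv, h⟩ := exists_ne (T := Option (Iᶜ : Finset ι))
    (fun t => t.elim (EuclideanSpace.projₗ k) fun i => f i) (by
      rw [Fintype.card_option, Fintype.card_coe, Finset.card_compl]; omega)
  apply hv
  ext l
  have h1 := H I u v hu (fun i hi => h (some ⟨i, Finset.mem_compl.2 hi⟩)) k l
  have h2 : v k = 0 := h none
  rw [h2] at h1
  have h3 : u k ^ 2 ≠ 0 := pow_ne_zero 2 hk
  have h4 : v l ^ 2 = 0 := by
    rcases mul_eq_zero.1 (h1.trans (by ring)) with h | h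
    · exact absurd h h3
    · exact h
  exact pow_eq_zero_iff two_ne_zero |>.1 h4

/-- a vector vanishing on `I` (with `n - 1` elements) and equal to `1` at `j ∉ I` -/
theorem exists_dual (I : Finset ι) (hI : I.card + 1 = n) (j : ι) (hj : j ∉ I) :
    ∃ w : EuclideanSpace ℝ (Fin n), f j w = 1 ∧ ∀ i ∈ I, f i w = 0 := by
  obtain ⟨w, hw, h⟩ := exists_ne_finset f I (by omega)
  have h1 : f j w ≠ 0 := fun h0 => hw (spark f H hc hn (insert j I)
    (by rw [Finset.card_insert_of_notMem hj]; omega) w (by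
      intro i hi
      rcases Finset.mem_insert.1 hi with rfl | hi
      · exact h0
      · exact h i hi))
  refine ⟨(f j w)⁻¹ • w, by simp [h1], fun i hi => by simp [h i hi]⟩

theorem exists_lam (M : Finset ι) (hM : M.card + 3 = n) :
    ∃ lam : EuclideanSpace ℝ (Fin n), lam ≠ 0 ∧
      ∀ u, (∀ i ∈ M, f i u = 0) → B lam u u = 0 := by
  obtain ⟨S, hS, hS3⟩ := Finset.exists_subset_card_eq (s := Mᶜ) (n := 3)
    (by rw [Finset.card_compl]; omega)
  obtain ⟨a, b, c, hab, hac, hbc, rfl⟩ := Finset.card_eq_three.1 hS3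
  have ha : a ∉ M := Finset.mem_compl.1 (hS (by simp))
  have hb : b ∉ M := Finset.mem_compl.1 (hS (by simp))
  have hc' : c ∉ M := Finset.mem_compl.1 (hS (by simp))
  have key : ∀ x y z : ι, x ∉ M → y ∉ M → z ∉ M → x ≠ y → x ≠ z → y ≠ z →
      ∃ w : EuclideanSpace ℝ (Fin n), f x w = 1 ∧ f y w = 0 ∧ f z w = 0 ∧
        ∀ i ∈ M, f i w = 0 := by
    intro x y z hx hy hz hxy hxz hyz
    obtain ⟨w, h1, h2⟩ := exists_dual f H hc hn (insert y (insert z M)) (by
      rw [Finset.card_insert_of_notMem (by simp [hy, hyz]), Finset.card_insert_of_notMem hz]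
      omega) x (by simp [hx, hxy, hxz])
    exact ⟨w, h1, h2 y (by simp), h2 z (by simp), fun i hi => h2 i (by simp [hi])⟩
  obtain ⟨p, p1, p2, p3, p4⟩ := key a b c ha hb hc' hab hac hbc
  obtain ⟨q, q1, q2, q3, q4⟩ := key b a c hb ha hc' hab.symm hbc hac
  obtain ⟨r, r1, r2, r3, r4⟩ := key c a b hc' ha hb hac.symm hbc.symm hab
  let g : EuclideanSpace ℝ (Fin n) → EuclideanSpace ℝ (Fin n) →
      EuclideanSpace ℝ (Fin n) →ₗ[ℝ] ℝ := fun u v =>
    { toFun := fun lam => B lam u v
      map_add' := fun x y => by simp [B, add_mul, Finset.sum_add_distrib]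
      map_smul' := fun t x => by simp [B, Finset.mul_sum, mul_assoc] }
  obtain ⟨lam, hlam, h⟩ := exists_ne (T := Fin 6)
    ![g p p, g p q, g p r, g q q, g q r, g r r] (by simp; omega)
  refine ⟨lam, hlam, fun u hu => ?_⟩
  have hu' : u - (f a u • p + f b u • q + f c u • r) = 0 := by
    refine spark f H hc hn (insert a (insert b (insert c M))) (by
      rw [Finset.card_insert_of_notMem (by simp [ha, hab, hac]),
        Finset.card_insert_of_notMem (by simp [hb, hbc]), Finset.card_insert_of_notMem hc']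
      omega) _ fun i hi => ?_
    simp only [Finset.mem_insert] at hi
    rcases hi with rfl | rfl | rfl | hi
    · simp [p1, q2, r2]
    · simp [p2, q1, r3]
    · simp [p3, q3, r1]
    · simp [hu i hi, p4 i hi, q4 i hi, r4 i hi]
  have e0 : B lam p p = 0 := h 0
  have e1 : B lam p q = 0 := h 1
  have e2 : B lam p r = 0 := h 2
  have e3 : B lam q q = 0 := h 3
  have e4 : B lam q r = 0 := h 4
  have e5 : B lam r r = 0 := h 5
  have hu2 := sub_eq_zero.1 hu'
  set α := f a u
  set β := f b u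
  set γ := f c u
  have : B lam u u = α ^ 2 * B lam p p + 2 * α * β * B lam p q + 2 * α * γ * B lam p r +
      β ^ 2 * B lam q q + 2 * β * γ * B lam q r + γ ^ 2 * B lam r r := by
    simp only [B, Finset.mul_sum, ← Finset.sum_add_distrib]
    refine Finset.sum_congr rfl fun k _ => ?_
    have hk : u k = α * p k + β * q k + γ * r k := by
      conv_lhs => rw [hu2]
      simp
    rw [hk]; ring
  rw [this, e0, e1, e2, e3, e4, e5]; ring

theorem core : False := by
  obtain ⟨M, -, hM⟩ := Finset.exists_subset_card_eq (s := (Finset.univ : Finset ι)) (n := n - 3)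
    (by rw [Finset.card_univ]; omega)
  obtain ⟨lam, hlam, hQ⟩ := exists_lam f H hc hn M (by omega)
  have hN : (Mᶜ).card = n + 1 := by rw [Finset.card_compl]; omega
  -- the form vanishes on vectors killed by all but two of the functionals outside `M`
  have h2 : ∀ i j : ι, ∀ v, (∀ l, l ∉ M → l ≠ i → l ≠ j → f l v = 0) → B lam v v = 0 := by
    intro i j v hv
    obtain ⟨u, hu, h⟩ := exists_ne_finset f (insert i (insert j M)) (by
      have h1 := Finset.card_insert_le i (insert j M)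
      have h2 := Finset.card_insert_le j M
      omega)
    have h3 := H _ u v h (fun l hl => by
      simp only [Finset.mem_insert, not_or] at hl
      exact hv l hl.2.2 hl.1 hl.2.1)
    have h4 := hQ u fun l hl => h l (by simp [hl])
    obtain ⟨k, hk⟩ : ∃ k, u k ≠ 0 := by
      by_contra hcon
      push Not at hcon
      exact hu (by ext k; exact hcon k)
    have h5 : u k ^ 2 * B lam v v = v k ^ 2 * B lam u u := by
      simp only [B, Finset.mul_sum]
      refine Finset.sum_congr rfl fun l _ => ?_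
      linear_combination lam l * h3 k l
    rw [h4, mul_zero] at h5
    exact (mul_eq_zero.1 h5).resolve_left (pow_ne_zero 2 hk)
  obtain ⟨o, ho⟩ : (Mᶜ).Nonempty := Finset.card_pos.1 (by omega)
  set S := (Mᶜ).erase o with hS
  have hScard : S.card = n := by rw [hS, Finset.card_erase_of_mem ho]; omega
  have h3 : ∀ i : S, ∃ w : EuclideanSpace ℝ (Fin n), f o w = 1 ∧ ∀ l ∈ S.erase i, f l w = 0 :=
    fun i => exists_dual f H hc hn _ (by rw [Finset.card_erase_of_mem i.2]; omega) o
      (by simp [hS])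
  choose w hw1 hw0 using h3
  have hmem : ∀ l, l ∉ M → l ≠ o → l ∈ S := fun l h1 h2 => by simp [hS, h1, h2]
  have hdiag : ∀ i : S, B lam (w i) (w i) = 0 := fun i =>
    h2 o i _ fun l h1 h2 h3 => hw0 i l (Finset.mem_erase.2 ⟨h3, hmem l h1 h2⟩)
  have hoff : ∀ i j : S, B lam (w i) (w j) = 0 := by
    intro i j
    have h4 := h2 i j (w i - w j) fun l h1 h2 h3 => by
      by_cases hl : l = o
      · subst hl; simp [hw1]
      · simp [hw0 i l (Finset.mem_erase.2 ⟨h2, hmem l h1 hl⟩),
          hw0 j l (Finset.mem_erase.2 ⟨h3, hmem l h1 hl⟩)]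
    have h5 : B lam (w i - w j) (w i - w j) =
        B lam (w i) (w i) - 2 * B lam (w i) (w j) + B lam (w j) (w j) := by
      simp only [B, Finset.mul_sum, ← Finset.sum_add_distrib, ← Finset.sum_sub_distrib]
      refine Finset.sum_congr rfl fun k _ => ?_
      simp only [PiLp.sub_apply]; ring
    rw [h4, hdiag, hdiag] at h5
    linarith
  have hne : ∀ i : S, f i (w i) ≠ 0 := fun i h0 => by
    have := spark f H hc hn S hScard.ge (w i) fun l hl => by
      by_cases h : l = i
      · rw [h]; exact h0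
      · exact hw0 i l (Finset.mem_erase.2 ⟨h, hl⟩)
    have h1 := hw1 i
    rw [this] at h1
    simp at h1
  have hexp : ∀ x : EuclideanSpace ℝ (Fin n), x = ∑ i : S, (f i x / f i (w i)) • w i := by
    intro x
    refine sub_eq_zero.1 (spark f H hc hn S hScard.ge _ fun l hl => ?_)
    rw [map_sub, map_sum, Finset.sum_eq_single (⟨l, hl⟩ : S)]
    · have := hne ⟨l, hl⟩
      simp only [map_smul, smul_eq_mul] at this ⊢
      field_simp
      ring
    · intro j _ hj
      rw [map_smul, hw0 j l (Finset.mem_erase.2 ⟨fun h => hj (Subtype.ext h.symm), hl⟩), smul_zero]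
    · simp
  apply hlam
  ext k
  have h6 : ∀ x : EuclideanSpace ℝ (Fin n), B lam x x = 0 := by
    intro x
    obtain ⟨c, hx⟩ : ∃ c : S → ℝ, x = ∑ i : S, c i • w i := ⟨_, hexp x⟩
    have hk : ∀ k, x k = ∑ i : S, c i * w i k := fun k => by
      conv_lhs => rw [hx]
      simp
    have h8 : B lam x x = ∑ i : S, ∑ j : S, c i * c j * B lam (w i) (w j) := by
      have e : ∀ k, lam k * (x k * x k) =
          ∑ i : S, ∑ j : S, c i * c j * (lam k * (w i k * w j k)) := fun k => by
        rw [hk, Finset.sum_mul_sum, Finset.mul_sum]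
        refine Finset.sum_congr rfl fun i _ => ?_
        rw [Finset.mul_sum]
        refine Finset.sum_congr rfl fun j _ => ?_
        ring
      simp only [B, e]
      rw [Finset.sum_comm]
      refine Finset.sum_congr rfl fun i _ => ?_
      rw [Finset.sum_comm]
      refine Finset.sum_congr rfl fun j _ => ?_
      rw [Finset.mul_sum]
    rw [h8]
    simp [hoff]
  have h7 := h6 (EuclideanSpace.single k 1)
  simpa [B, Pi.single_apply] using h7

end Core

theorem result (n : ℕ) (hn : 7 ≤ n) (W : Fin (2 * n - 2) → Submodule ℝ (EuclideanSpace ℝ (Fin n)))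
    (hW : ∀ i, Module.finrank ℝ (W i) = 1) : ¬ WeakPR W := by
  intro h
  have h1 : ∀ i, ∃ φ : EuclideanSpace ℝ (Fin n), ∀ u, ⟪φ, u⟫ = 0 → (W i).starProjection u = 0 := by
    intro i
    obtain ⟨φ, -, hφ⟩ := finrank_eq_one_iff'.1 (hW i)
    refine ⟨φ, fun u hu => (Submodule.starProjection_apply_eq_zero_iff _).2 ?_⟩
    rw [Submodule.mem_orthogonal]
    intro x hx
    obtain ⟨c, hc⟩ := hφ ⟨x, hx⟩
    have : x = c • (φ : EuclideanSpace ℝ (Fin n)) := (congrArg Subtype.val hc).symm
    rw [this, real_inner_smul_left, hu, mul_zero]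
  choose φ hφ using h1
  refine core (fun i => innerₗ _ (φ i)) ?_ (by simp) hn
  have key : ∀ (I : Finset (Fin (2 * n - 2))) (u v : EuclideanSpace ℝ (Fin n)),
      (∀ i ∈ I, ⟪φ i, u⟫ = 0) → (∀ i, i ∉ I → ⟪φ i, v⟫ = 0) →
      ∀ k l, u k ^ 2 * v l ^ 2 ≤ u l ^ 2 * v k ^ 2 := by
    intro I u v hu hv k l
    by_contra hlt
    push Not at hlt
    set s := Real.sqrt (v k ^ 2 + v l ^ 2)
    set t := Real.sqrt (u k ^ 2 + u l ^ 2)
    have hs : s ^ 2 = v k ^ 2 + v l ^ 2 := Real.sq_sqrt (by positivity)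
    have ht : t ^ 2 = u k ^ 2 + u l ^ 2 := Real.sq_sqrt (by positivity)
    refine not_same (x := s • u + t • v) (y := s • u - t • v) (k := k) (l := l) ?_ ?_
      (h _ _ fun i => ?_)
    · simp only [PiLp.add_apply, PiLp.sub_apply, PiLp.smul_apply, smul_eq_mul]
      have : (s * u k + t * v k) * (s * u k - t * v k) = s ^ 2 * u k ^ 2 - t ^ 2 * v k ^ 2 := by
        ring
      rw [this, hs, ht]; linarith
    · simp only [PiLp.add_apply, PiLp.sub_apply, PiLp.smul_apply, smul_eq_mul]
      have : (s * u l + t * v l) * (s * u l - t * v l) = s ^ 2 * u l ^ 2 - t ^ 2 * v l ^ 2 := by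
        ring
      rw [this, hs, ht]; linarith
    · rw [map_add, map_sub, map_smul, map_smul]
      by_cases hi : i ∈ I
      · rw [hφ i u (hu i hi)]; simp
      · rw [hφ i v (hv i hi)]; simp
  intro I u v hu hv k l
  exact le_antisymm (key I u v hu hv k l) (key I u v hu hv l k)

end Pool.Agent.Results.MP_eac85a_an.NoLines
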